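import Mathlib

/-!
# Quotients of C*-algebras by closed two-sided ideals (piece QU of MP_715b63_an)
-/

set_option autoImplicit false
set_option linter.style.haveILetI false

open CategoryTheory Topology
open scoped ENNReal

namespace Pool.Agent.KW

universe u v

namespace QU

variable {B : Type u} [NonUnitalCStarAlgebra B]

open CStarAlgebra in
/-- the key estimate in a unital C*-algebra -/
theorem key_unital {A : Type u} [CStarAlgebra A] (b j s : A) (hs : ‖star s * s‖ ≤ 1) :
    ‖b - b * (star s * s)‖ ^ 2 ≤ ‖star b * b + j‖ + ‖j - j * (star s * s)‖ := by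
  letI := CStarAlgebra.spectralOrder A
  letI := CStarAlgebra.spectralOrderedRing A
  set e := star s * s with he
  have hsa : star e = e := by simp [he]
  have h0 : 0 ≤ e := star_mul_self_nonneg s
  have hI : e ∈ Set.Icc (0 : A) 1 := CStarAlgebra.mem_Icc_iff_norm_le_one.2 ⟨h0, hs⟩
  have hI' : 1 - e ∈ Set.Icc (0 : A) 1 := Set.sub_mem_Icc_zero_iff_right.mpr hI
  have h1 : ‖1 - e‖ ≤ 1 := (CStarAlgebra.mem_Icc_iff_norm_le_one.1 hI').2
  have h2 : b - b * e = b * (1 - e) := by rw [mul_sub, mul_one]
  have h3 : j - j * e = j * (1 - e) := by rw [mul_sub, mul_one]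
  have hsa' : star (1 - e) = 1 - e := by rw [star_sub, star_one, hsa]
  rw [h2, h3, sq, ← CStarRing.norm_star_mul_self, star_mul, hsa']
  have h4 : (1 - e) * star b * (b * (1 - e)) =
      (1 - e) * (star b * b + j) * (1 - e) - (1 - e) * (j * (1 - e)) := by
    noncomm_ring
  rw [h4]
  refine (norm_sub_le _ _).trans (add_le_add ?_ ?_)
  · calc ‖(1 - e) * (star b * b + j) * (1 - e)‖
        ≤ ‖(1 - e)‖ * ‖(star b * b + j)‖ * ‖(1 - e)‖ :=
          (norm_mul_le _ _).trans (by gcongr; exact norm_mul_le _ _)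
      _ ≤ 1 * ‖(star b * b + j)‖ * 1 := by gcongr
      _ = _ := by ring
  · calc ‖(1 - e) * (j * (1 - e))‖ ≤ ‖(1 - e)‖ * ‖j * (1 - e)‖ := norm_mul_le _ _
      _ ≤ 1 * ‖j * (1 - e)‖ := by gcongr
      _ = _ := by ring

theorem key (J : NonUnitalStarSubalgebra ℂ B) (hc : IsClosed (J : Set B))
    (b j : B) (hj : j ∈ J) (ε : ℝ) (hε : 0 < ε) :
    ∃ e ∈ J, ‖b - b * e‖ ^ 2 ≤ ‖star b * b + j‖ + ε := by
  haveI : IsClosed (J : Set B) := hc
  letI : NonUnitalCStarAlgebra J := NonUnitalStarSubalgebra.nonUnitalCStarAlgebra J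
  letI : PartialOrder J := CStarAlgebra.spectralOrder J
  haveI : StarOrderedRing J := CStarAlgebra.spectralOrderedRing J
  have hl := CStarAlgebra.increasingApproximateUnit J
  haveI := hl.neBot
  have h1 := hl.tendsto_mul_left (⟨j, hj⟩ : J)
  rw [Metric.tendsto_nhds] at h1
  obtain ⟨e, he1, he2, he3⟩ := ((h1 ε hε).and (hl.eventually_nonneg.and hl.eventually_norm)).exists
  obtain ⟨s, hs⟩ := CStarAlgebra.nonneg_iff_eq_star_mul_self.1 he2
  refine ⟨e, e.2, ?_⟩
  have h2 := key_unital (A := Unitization ℂ B) (b : Unitization ℂ B) (j : Unitization ℂ B)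
    ((s : B) : Unitization ℂ B) (by
      rw [← Unitization.inr_star, ← Unitization.inr_mul, Unitization.norm_inr]
      have : (star (s : B)) * (s : B) = ((star s * s : J) : B) := rfl
      rw [this, ← hs]
      exact he3)
  have hE : star ((s : B) : Unitization ℂ B) * ((s : B) : Unitization ℂ B) =
      ((e : B) : Unitization ℂ B) := by
    rw [← Unitization.inr_star, ← Unitization.inr_mul, hs]
    rfl
  rw [hE, ← Unitization.inr_mul, ← Unitization.inr_mul, ← Unitization.inr_sub,
    ← Unitization.inr_sub, Unitization.norm_inr, Unitization.norm_inr, ← Unitization.inr_star,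
    ← Unitization.inr_mul, ← Unitization.inr_add, Unitization.norm_inr] at h2
  have h3 : ‖j - j * (e : B)‖ ≤ ε := by
    rw [dist_comm, dist_eq_norm] at he1
    exact he1.le
  linarith

/-- the ideal as a submodule -/
def sub (J : NonUnitalStarSubalgebra ℂ B) : Submodule ℂ B :=
  J.toNonUnitalSubalgebra.toSubmodule

theorem mem_sub (J : NonUnitalStarSubalgebra ℂ B) (b : B) : b ∈ sub J ↔ b ∈ J := Iff.rfl

section Quot

variable (J : NonUnitalStarSubalgebra ℂ B) (hc : IsClosed (J : Set B))
  (hl : ∀ b, ∀ j ∈ J, b * j ∈ J) (hr : ∀ b, ∀ j ∈ J, j * b ∈ J)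

/-- multiplication on the quotient -/
def qmul : B ⧸ sub J → B ⧸ sub J → B ⧸ sub J :=
  Quotient.map₂ (· * ·) (by
    intro a a' ha b b' hb
    rw [← Quotient.eq_iff_equiv] at *
    have ha' : a - a' ∈ J := (Submodule.Quotient.eq (sub J)).1 ha
    have hb' : b - b' ∈ J := (Submodule.Quotient.eq (sub J)).1 hb
    refine (Submodule.Quotient.eq (sub J)).2 ?_
    show a * b - a' * b' ∈ J
    have : a * b - a' * b' = a * (b - b') + (a - a') * b' := by noncomm_ring
    rw [this]
    exact add_mem (hl _ _ hb') (hr _ _ ha'))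

theorem qmul_mk (a b : B) : qmul J hl hr (Submodule.Quotient.mk a) (Submodule.Quotient.mk b) =
    Submodule.Quotient.mk (a * b) := rfl

/-- the star operation on the quotient -/
def qstar : B ⧸ sub J → B ⧸ sub J :=
  Quotient.map star (by
    intro a a' ha
    rw [← Quotient.eq_iff_equiv] at *
    have ha' : a - a' ∈ J := (Submodule.Quotient.eq (sub J)).1 ha
    refine (Submodule.Quotient.eq (sub J)).2 ?_
    show star a - star a' ∈ J
    rw [← star_sub]
    exact star_mem ha')

theorem qstar_mk (a : B) : qstar J (Submodule.Quotient.mk a) =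
    Submodule.Quotient.mk (star a) := rfl


/-- a type synonym for the quotient -/
def Q : Type u := B ⧸ sub J

set_option warn.classDefReducibility false in
/-- the quotient C*-algebra -/
noncomputable def alg : NonUnitalCStarAlgebra (Q J) :=
  haveI : IsClosed (sub J : Set B) := hc
  letI I1 : NormedAddCommGroup (B ⧸ sub J) := Submodule.Quotient.normedAddCommGroup (sub J)
  letI I2 : NormedSpace ℂ (B ⧸ sub J) := Submodule.Quotient.normedSpace (sub J) ℂ
  letI I3 : NonUnitalNormedRing (B ⧸ sub J) :=
    { I1 with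
      mul := qmul J hl hr
      left_distrib := by
        rintro ⟨a⟩ ⟨b⟩ ⟨c⟩
        exact congrArg Submodule.Quotient.mk (mul_add a b c)
      right_distrib := by
        rintro ⟨a⟩ ⟨b⟩ ⟨c⟩
        exact congrArg Submodule.Quotient.mk (add_mul a b c)
      zero_mul := by
        rintro ⟨a⟩
        exact congrArg Submodule.Quotient.mk (zero_mul a)
      mul_zero := by
        rintro ⟨a⟩
        exact congrArg Submodule.Quotient.mk (mul_zero a)
      mul_assoc := by
        rintro ⟨a⟩ ⟨b⟩ ⟨c⟩
        exact congrArg Submodule.Quotient.mk (mul_assoc a b c)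
      norm_mul_le := by
        intro x y
        refine le_of_forall_pos_le_add fun ε hε => ?_
        have hcont : Filter.Tendsto (fun δ : ℝ => (‖x‖ + δ) * (‖y‖ + δ)) (𝓝[>] 0)
            (𝓝 ((‖x‖ + 0) * (‖y‖ + 0))) := by
          refine Filter.Tendsto.mono_left ?_ nhdsWithin_le_nhds
          exact (Continuous.tendsto (by fun_prop) 0)
        have h1 := hcont.eventually_lt_const (u := ‖x‖ * ‖y‖ + ε) (by simpa using hε)
        obtain ⟨δ, hδ1, hδ⟩ := (h1.and self_mem_nhdsWithin).exists
        obtain ⟨a, rfl, ha⟩ := Submodule.Quotient.norm_mk_lt x hδ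
        obtain ⟨b, rfl, hb⟩ := Submodule.Quotient.norm_mk_lt y hδ
        refine (Submodule.Quotient.norm_mk_le (sub J) (a * b)).trans ?_
        refine (norm_mul_le a b).trans ?_
        refine le_trans ?_ hδ1.le
        gcongr }
  letI I4 : StarRing (B ⧸ sub J) :=
    { star := qstar J
      star_involutive := by
        rintro ⟨a⟩
        exact congrArg Submodule.Quotient.mk (star_star a)
      star_mul := by
        rintro ⟨a⟩ ⟨b⟩
        exact congrArg Submodule.Quotient.mk (star_mul a b)
      star_add := by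
        rintro ⟨a⟩ ⟨b⟩
        exact congrArg Submodule.Quotient.mk (star_add a b) }
  { toNonUnitalNormedRing := I3
    toStarRing := I4
    toCompleteSpace := Submodule.Quotient.completeSpace (sub J)
    toNormedSpace := I2
    toCStarRing := by
      refine @CStarRing.mk (B ⧸ sub J) _ _ ?_
      intro x
      refine le_of_forall_pos_le_add fun ε hε => ?_
      obtain ⟨m, hm, hm'⟩ := Submodule.Quotient.norm_mk_lt (star x * x) (half_pos hε)
      obtain ⟨b, rfl⟩ := Submodule.Quotient.mk_surjective (sub J) x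
      have hj : m - star b * b ∈ J := (Submodule.Quotient.eq (sub J)).1 hm
      obtain ⟨e, he, hk⟩ := key J hc b _ hj (ε / 2) (half_pos hε)
      have h1 : (Submodule.Quotient.mk b : B ⧸ sub J) = Submodule.Quotient.mk (b - b * e) := by
        refine (Submodule.Quotient.eq (sub J)).2 ?_
        rw [sub_sub_cancel]
        exact hl _ _ he
      have h2 : ‖(Submodule.Quotient.mk b : B ⧸ sub J)‖ ≤ ‖b - b * e‖ := by
        rw [h1]
        exact Submodule.Quotient.norm_mk_le (sub J) _
      have h3 : ‖(Submodule.Quotient.mk b : B ⧸ sub J)‖ ^ 2 ≤ ‖b - b * e‖ ^ 2 := by gcongr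
      rw [add_sub_cancel] at hk
      rw [← sq]
      linarith
    smul_assoc := by
      rintro c ⟨a⟩ ⟨b⟩
      exact congrArg Submodule.Quotient.mk (smul_mul_assoc c a b)
    smul_comm := by
      rintro c ⟨a⟩ ⟨b⟩
      exact congrArg Submodule.Quotient.mk (mul_smul_comm c a b).symm
    star_smul := by
      rintro c ⟨a⟩
      exact congrArg Submodule.Quotient.mk (star_smul c a) }

end Quot

end QU

/-- the quotient of a C*-algebra by a closed two-sided ideal -/
theorem exists_quotient {B : Type u} [NonUnitalCStarAlgebra B] (J : NonUnitalStarSubalgebra ℂ B)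
    (hc : IsClosed (J : Set B)) (hl : ∀ b, ∀ j ∈ J, b * j ∈ J) (hr : ∀ b, ∀ j ∈ J, j * b ∈ J) :
    ∃ (C : Type u) (_ : NonUnitalCStarAlgebra C) (q : B →⋆ₙₐ[ℂ] C),
      Function.Surjective q ∧ ∀ b, q b = 0 ↔ b ∈ J := by
  refine ⟨QU.Q J, QU.alg J hc hl hr, ?_⟩
  letI := QU.alg J hc hl hr
  refine ⟨{ toFun := Submodule.Quotient.mk
            map_smul' := fun _ _ => rfl
            map_zero' := rfl
            map_add' := fun _ _ => rfl
            map_mul' := fun _ _ => rfl
            map_star' := fun _ => rfl }, Submodule.Quotient.mk_surjective (QU.sub J), fun b => ?_⟩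
  exact Submodule.Quotient.mk_eq_zero (QU.sub J)

end Pool.Agent.KW
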