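import Pool.Agent.Helper79.KW.OpDefs
import Pool.Agent.Helper52.KW.QU
import Pool.Agent.Helper67.KW.MN1
import Pool.Agent.Helper51.KW.MN2

/-!
# The consequence of exactness (piece EC of MP_715b63_an)
-/

set_option autoImplicit false
set_option linter.style.haveILetI false

open CategoryTheory Topology
open scoped ENNReal

namespace Pool.Agent.KW

universe u v

namespace EC

/-- matrices over a bounded product: the norm is the supremum of the norms of the components -/
theorem matNorm_lp_le {I : Type*} {E : I → Type*} [∀ i, NonUnitalCStarAlgebra (E i)]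
    {n : Type*} [Fintype n] (M : n → n → lp E ∞) (ε : ℝ) (hε : 0 ≤ ε)
    (h : ∀ W, matNorm (fun i j => (M i j : ∀ W, E W) W) ≤ ε) : matNorm M ≤ ε := by
  letI o1 := CStarAlgebra.spectralOrder (lp E ∞)
  letI o2 := CStarAlgebra.spectralOrderedRing (lp E ∞)
  letI o3 : ∀ W, PartialOrder (E W) := fun W => CStarAlgebra.spectralOrder (E W)
  letI o4 : ∀ W, StarOrderedRing (E W) := fun W => CStarAlgebra.spectralOrderedRing (E W)
  let Φ : CStarMatrix n n (lp E ∞) →⋆ₙₐ[ℂ] lp (fun W => CStarMatrix n n (E W)) ∞ :=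
    { toFun := fun M => ⟨fun W => CStarMatrix.ofMatrix (fun i j => (M i j : ∀ W, E W) W), by
        refine memℓp_infty ⟨∑ i, ∑ j, ‖M i j‖, ?_⟩
        rintro _ ⟨W, rfl⟩
        refine (matNorm_le_sum (fun i j => (M i j : ∀ W, E W) W)).trans ?_
        gcongr with i _ j _
        exact lp.norm_apply_le_norm (by simp) (M i j) W⟩
      map_smul' := fun c M => rfl
      map_zero' := rfl
      map_add' := fun M N => rfl
      map_mul' := fun M N => by
        refine Subtype.ext (funext fun W => ?_)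
        refine CStarMatrix.ext fun i j => ?_
        show ((∑ k, M i k * N k j : lp E ∞) : ∀ W, E W) W = _
        rw [lp.coeFn_sum, Finset.sum_apply]
        rfl
      map_star' := fun M => rfl }
  have hinj : Function.Injective Φ := by
    intro M N hMN
    refine CStarMatrix.ext fun i j => ?_
    refine Subtype.ext (funext fun W => ?_)
    have h1 := congrArg (fun x : lp (fun W => CStarMatrix n n (E W)) ∞ =>
      (x : ∀ W, CStarMatrix n n (E W)) W i j) hMN
    exact h1
  have h2 : ‖Φ (CStarMatrix.ofMatrix M)‖ = ‖(CStarMatrix.ofMatrix M : CStarMatrix n n (lp E ∞))‖ :=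
    NonUnitalStarAlgHom.norm_map Φ hinj _
  show ‖(CStarMatrix.ofMatrix M : CStarMatrix n n (lp E ∞))‖ ≤ ε
  rw [← h2]
  exact lp.norm_le_of_forall_le hε (fun W => h W)

end EC

namespace EC

section
variable {S : Type u} (E : Finset S → Type u) [∀ W, CStarAlgebra (E W)]

/-- bounded families tending to zero in norm -/
def J0 : NonUnitalStarSubalgebra ℂ (lp E ∞) where
  carrier := {b | Filter.Tendsto (fun W => ‖(b : ∀ W, E W) W‖) Filter.atTop (𝓝 0)}
  add_mem' := by
    intro a b ha hb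
    have h1 : Filter.Tendsto (fun W => ‖(a : ∀ W, E W) W‖ + ‖(b : ∀ W, E W) W‖) Filter.atTop
        (𝓝 0) := by simpa using Filter.Tendsto.add ha hb
    exact squeeze_zero (fun _ => norm_nonneg _) (fun W => norm_add_le _ _) h1
  zero_mem' := by
    show Filter.Tendsto (fun W => ‖((0 : lp E ∞) : ∀ W, E W) W‖) Filter.atTop (𝓝 0)
    simp
  mul_mem' := by
    intro a b ha hb
    have h1 : Filter.Tendsto (fun W => ‖(a : ∀ W, E W) W‖ * ‖(b : ∀ W, E W) W‖) Filter.atTop
        (𝓝 0) := by simpa using Filter.Tendsto.mul ha hb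
    exact squeeze_zero (fun _ => norm_nonneg _) (fun W => norm_mul_le _ _) h1
  smul_mem' := by
    intro c a ha
    have h1 : Filter.Tendsto (fun W => ‖c‖ * ‖(a : ∀ W, E W) W‖) Filter.atTop
        (𝓝 0) := by simpa using Filter.Tendsto.const_mul ‖c‖ ha
    exact squeeze_zero (fun _ => norm_nonneg _) (fun W => norm_smul_le _ _) h1
  star_mem' := by
    intro a ha
    refine Filter.Tendsto.congr (fun W => ?_) ha
    exact (norm_star ((a : ∀ W, E W) W)).symm

theorem mem_J0 (b : lp E ∞) : b ∈ J0 E ↔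
    Filter.Tendsto (fun W => ‖(b : ∀ W, E W) W‖) Filter.atTop (𝓝 0) := Iff.rfl

theorem J0_left (b j : lp E ∞) (hj : j ∈ J0 E) : b * j ∈ J0 E := by
  have h1 : Filter.Tendsto (fun W => ‖b‖ * ‖(j : ∀ W, E W) W‖) Filter.atTop
      (𝓝 0) := by simpa using Filter.Tendsto.const_mul ‖b‖ hj
  refine squeeze_zero (fun _ => norm_nonneg _) (fun W => ?_) h1
  refine (norm_mul_le ((b : ∀ W, E W) W) ((j : ∀ W, E W) W)).trans ?_
  gcongr
  exact lp.norm_apply_le_norm (by simp) b W

theorem J0_right (b j : lp E ∞) (hj : j ∈ J0 E) : j * b ∈ J0 E := by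
  have h1 : Filter.Tendsto (fun W => ‖(j : ∀ W, E W) W‖ * ‖b‖) Filter.atTop
      (𝓝 0) := by simpa using Filter.Tendsto.mul_const ‖b‖ hj
  refine squeeze_zero (fun _ => norm_nonneg _) (fun W => ?_) h1
  refine (norm_mul_le ((j : ∀ W, E W) W) ((b : ∀ W, E W) W)).trans ?_
  gcongr
  exact lp.norm_apply_le_norm (by simp) b W

theorem J0_closed : IsClosed (J0 E : Set (lp E ∞)) := by
  classical
  rw [← closure_subset_iff_isClosed]
  intro b hb
  rw [Metric.mem_closure_iff] at hb
  refine (mem_J0 E b).2 ?_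
  rw [Metric.tendsto_atTop]
  intro ε hε
  obtain ⟨j, hj, hbj⟩ := hb (ε / 2) (half_pos hε)
  have hj' := (mem_J0 E j).1 hj
  rw [Metric.tendsto_atTop] at hj'
  obtain ⟨W0, hW0⟩ := hj' (ε / 2) (half_pos hε)
  refine ⟨W0, fun W hW => ?_⟩
  have h1 := hW0 W hW
  rw [dist_zero_right, norm_norm] at h1 ⊢
  rw [dist_eq_norm] at hbj
  have h2 : ‖((b - j : lp E ∞) : ∀ W, E W) W‖ ≤ ‖b - j‖ := lp.norm_apply_le_norm (by simp) _ W
  have h3 : (b : ∀ W, E W) W = ((b - j : lp E ∞) : ∀ W, E W) W + (j : ∀ W, E W) W := by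
    rw [lp.coeFn_sub, Pi.sub_apply, sub_add_cancel]
  rw [h3]
  refine (norm_add_le _ _).trans_lt ?_
  linarith

end

/-- scalars as multiples of the unit -/
def scal (A : Type*) [CStarAlgebra A] : ℂ →⋆ₙₐ[ℂ] A where
  toFun c := c • 1
  map_smul' c d := by simp [smul_smul]
  map_zero' := by simp
  map_add' c d := add_smul c d 1
  map_mul' c d := by simp [smul_smul, mul_comm]
  map_star' c := by simp

theorem scal_apply (A : Type*) [CStarAlgebra A] (c : ℂ) : scal A c = c • (1 : A) := rfl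

theorem matNorm_smul_le {n A : Type*} [Fintype n] [CStarAlgebra A] (a : n → n → ℂ) (b : A) :
    matNorm (fun i j => a i j • b) ≤ matNorm a * ‖b‖ := by
  classical
  have h1 : (fun i j => a i j • b) =
      fun i j : n => ∑ k, (fun i j => scal A (a i j)) i k * (fun k j => if k = j then b else 0) k j := by
    funext i j
    simp [scal_apply]
  rw [h1]
  refine (matNorm_mul_le _ _).trans ?_
  have h2 : matNorm (fun i j => scal A (a i j)) ≤ matNorm a := matNorm_map_le (scal A) a
  have h3 : matNorm (fun k j : n => if k = j then b else 0) ≤ ‖b‖ := by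
    refine matNorm_le_of_entries _ _ (norm_nonneg b) ?_ ?_ ?_
    · intro i j j' h h'
      have h1 : i = j := by by_contra hc; exact h (if_neg hc)
      have h2 : i = j' := by by_contra hc; exact h' (if_neg hc)
      exact h1.symm.trans h2
    · intro i i' j h h'
      have h1 : i = j := by by_contra hc; exact h (if_neg hc)
      have h2 : i' = j := by by_contra hc; exact h' (if_neg hc)
      exact h1.trans h2.symm
    · intro i j
      split_ifs
      · exact le_rfl
      · simp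
  exact mul_le_mul h2 h3 (matNorm_nonneg _) (matNorm_nonneg _)

theorem matNorm_coef_le {S : Type*} (T : L2 S →L[ℂ] L2 S) (V : Finset S) :
    matNorm (fun s t : V => coef T s t) ≤ ‖T‖ := by
  classical
  have h1 := matNorm_scalar (Matrix.of fun s t : V => coef T s t)
  refine le_of_eq_of_le h1 ?_
  refine ContinuousLinearMap.opNorm_le_bound _ (norm_nonneg _) fun x => ?_
  set f : S → ℂ := fun s => if h : s ∈ V then x ⟨s, h⟩ else 0 with hf
  set y : L2 S := ∑ t ∈ V, lp.single 2 t (f t) with hy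
  have hp : 0 < (2 : ℝ≥0∞).toReal := by norm_num
  have hny : ‖y‖ ^ 2 = ‖x‖ ^ 2 := by
    have h2 := lp.norm_sum_single hp f V
    rw [ENNReal.toReal_ofNat] at h2
    simp only [Real.rpow_ofNat] at h2
    rw [hy, h2, EuclideanSpace.norm_sq_eq, ← Finset.sum_coe_sort V]
    refine Finset.sum_congr rfl fun t _ => ?_
    rw [hf]
    simp
  have hny' : ‖y‖ = ‖x‖ := by
    rwa [sq_eq_sq₀ (norm_nonneg _) (norm_nonneg _)] at hny
  have hTy : ∀ s, (T y : S → ℂ) s = ∑ t : V, coef T s t * x t := by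
    intro s
    rw [hy, map_sum, lp.coeFn_sum, Finset.sum_apply, ← Finset.sum_coe_sort V]
    refine Finset.sum_congr rfl fun t _ => ?_
    have h3 : (lp.single 2 (t : S) (f t) : L2 S) = f t • lp.single 2 (t : S) (1 : ℂ) := by
      rw [← lp.single_smul, smul_eq_mul, mul_one]
    rw [h3, map_smul, lp.coeFn_smul, Pi.smul_apply, smul_eq_mul, mul_comm]
    have h4 : f t = x t := by simp [hf]
    rw [h4]
    rfl
  have h5 : ‖(Matrix.toEuclideanCLM (n := V) (𝕜 := ℂ) (Matrix.of fun s t : V => coef T s t) :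
      EuclideanSpace ℂ V →L[ℂ] EuclideanSpace ℂ V) x‖ ^ 2 ≤ (‖T‖ * ‖x‖) ^ 2 := by
    rw [EuclideanSpace.norm_sq_eq]
    have h6 : ∀ s : V, ((Matrix.toEuclideanCLM (n := V) (𝕜 := ℂ)
        (Matrix.of fun s t : V => coef T s t) :
        EuclideanSpace ℂ V →L[ℂ] EuclideanSpace ℂ V) x) s = (T y : S → ℂ) s := by
      intro s
      rw [hTy s]
      rfl
    simp only [h6]
    have h7 := lp.sum_rpow_le_norm_rpow hp (T y) V
    rw [ENNReal.toReal_ofNat] at h7
    simp only [Real.rpow_ofNat] at h7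
    rw [← Finset.sum_coe_sort V] at h7
    refine h7.trans ?_
    rw [← hny']
    gcongr
    exact T.le_opNorm y
  exact (sq_le_sq₀ (norm_nonneg _) (by positivity)).1 h5

end EC

theorem exact_consequence {S : Type u} (D : Set (L2 S →L[ℂ] L2 S)) (h : IsExactAlg D)
    (E : Finset S → Type u) [∀ W, CStarAlgebra (E W)] (m : ∀ W, S → S → E W)
    (hm : ∀ ε > 0, ∃ (r : ℕ) (d : Fin r → (L2 S →L[ℂ] L2 S)) (b : Fin r → ∀ W, E W) (C : ℝ),
      (∀ i, d i ∈ D) ∧ (∀ i W, ‖b i W‖ ≤ C) ∧
      ∀ W, MatLE (fun s t => m W s t - ∑ i, coef (d i) s t • b i W) ε)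
    (hJ : ∀ s t, Filter.Tendsto (fun W => ‖m W s t‖) Filter.atTop (𝓝 0)) :
    ∀ ε > 0, ∃ W₀ : Finset S, ∀ W, W₀ ⊆ W → MatLE (m W) ε := by
  classical
  have hbd : ∀ s t, BddAbove (Set.range fun W => ‖m W s t‖) := by
    intro s t
    obtain ⟨r, d, b, C, hd, hb, hML⟩ := hm 1 one_pos
    refine ⟨1 + ∑ i, ‖coef (d i) s t‖ * C, ?_⟩
    rintro _ ⟨W, rfl⟩
    have h1 := hML W {s, t}
    have h2 := (norm_entry_le_matNorm _ (⟨s, by simp⟩ : ({s, t} : Finset S))
      (⟨t, by simp⟩ : ({s, t} : Finset S))).trans h1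
    have h3 : m W s t = (m W s t - ∑ i, coef (d i) s t • b i W) +
      ∑ i, coef (d i) s t • b i W := by abel
    show ‖m W s t‖ ≤ _
    rw [h3]
    refine (norm_add_le _ _).trans (add_le_add h2 ?_)
    refine (norm_sum_le _ _).trans (Finset.sum_le_sum fun i _ => ?_)
    rw [norm_smul]
    gcongr
    exact hb i W
  let mB : S → S → lp E ∞ := fun s t => ⟨fun W => m W s t, memℓp_infty (hbd s t)⟩
  have hmB : mB ∈ minTensor D (lp E ∞) := by
    intro ε hε
    obtain ⟨r, d, b, C, hd, hb, hML⟩ := hm ε hε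
    let bB : Fin r → lp E ∞ := fun i => ⟨b i, memℓp_infty ⟨C, by
      rintro _ ⟨W, rfl⟩
      exact hb i W⟩⟩
    refine ⟨∑ i, elemTensor (d i) (bB i), ?_, ?_⟩
    · exact Submodule.sum_mem _ fun i _ => Submodule.subset_span ⟨d i, hd i, bB i, rfl⟩
    · intro F
      refine EC.matNorm_lp_le _ ε hε.le fun W => ?_
      refine le_of_eq_of_le ?_ (hML W F)
      congr 1
      funext s t
      show (((mB - ∑ i, elemTensor (d i) (bB i)) s t : lp E ∞) : ∀ W, E W) W = _
      rw [Pi.sub_apply, Pi.sub_apply, lp.coeFn_sub, Pi.sub_apply, Finset.sum_apply,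
        Finset.sum_apply, lp.coeFn_sum, Finset.sum_apply]
      rfl
  obtain ⟨C, instC, q, hq1, hq2⟩ := exists_quotient (EC.J0 E) (EC.J0_closed E)
    (EC.J0_left E) (EC.J0_right E)
  haveI : IsClosed (EC.J0 E : Set (lp E ∞)) := EC.J0_closed E
  letI : NonUnitalCStarAlgebra (EC.J0 E) := NonUnitalStarSubalgebra.nonUnitalCStarAlgebra _
  let i : EC.J0 E →⋆ₙₐ[ℂ] lp E ∞ := NonUnitalStarSubalgebraClass.subtype (EC.J0 E)
  have hse : CStarShortExact i q := by
    refine ⟨Subtype.val_injective, hq1, fun b => ?_⟩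
    rw [hq2]
    constructor
    · intro hb
      exact ⟨⟨b, hb⟩, rfl⟩
    · rintro ⟨x, rfl⟩
      exact x.2
  obtain ⟨-, -, -, -, h5⟩ := h _ _ _ i q hse
  have h6 : mapMat q mB = 0 := by
    funext s t
    exact (hq2 _).2 (hJ s t)
  obtain ⟨m', hm', hm'B⟩ := (h5 mB hmB).1 h6
  have h7 : ∀ W s t, m W s t = ((m' s t : lp E ∞) : ∀ W, E W) W := by
    intro W s t
    have h8 := congrFun (congrFun hm'B s) t
    have h9 : (mB s t : ∀ W, E W) W = m W s t := rfl
    rw [← h9, ← h8]
    rfl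
  intro ε hε
  have hspan : ∀ z ∈ algTensor D (EC.J0 E), ∀ ε > 0, ∃ W₀ : Finset S, ∀ W, W₀ ⊆ W →
      MatLE (fun s t => ((z s t : lp E ∞) : ∀ W, E W) W) ε := by
    intro z hz
    refine Submodule.span_induction ?_ ?_ ?_ ?_ hz
    · rintro _ ⟨d, hd, b, rfl⟩ ε hε
      have hb := (EC.mem_J0 E b).1 b.2
      have hb' : Filter.Tendsto (fun W => ‖d‖ * ‖((b : lp E ∞) : ∀ W, E W) W‖) Filter.atTop
        (𝓝 0) := by simpa using Filter.Tendsto.const_mul ‖d‖ hb
      rw [Metric.tendsto_atTop] at hb'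
      obtain ⟨W₀, hW₀⟩ := hb' ε hε
      refine ⟨W₀, fun W hW F => ?_⟩
      have h1 := hW₀ W hW
      rw [dist_zero_right, norm_mul, norm_norm, norm_norm] at h1
      refine le_trans ?_ h1.le
      refine (EC.matNorm_smul_le (fun s t : F => coef d s t)
        (((b : lp E ∞) : ∀ W, E W) W)).trans ?_
      gcongr
      exact EC.matNorm_coef_le d F
    · intro ε hε
      refine ⟨∅, fun W _ F => ?_⟩
      refine le_of_eq_of_le ?_ hε.le
      exact matNorm_zero
    · intro x y _ _ hx hy ε hε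
      obtain ⟨W₁, h₁⟩ := hx (ε / 2) (half_pos hε)
      obtain ⟨W₂, h₂⟩ := hy (ε / 2) (half_pos hε)
      refine ⟨W₁ ∪ W₂, fun W hW F => ?_⟩
      refine (matNorm_add_le (fun s t : F => ((x s t : lp E ∞) : ∀ W, E W) W)
        (fun s t : F => ((y s t : lp E ∞) : ∀ W, E W) W)).trans ?_
      have h3 := h₁ W (Finset.union_subset_left hW) F
      have h4 := h₂ W (Finset.union_subset_right hW) F
      linarith
    · intro c x _ hx ε hε
      obtain ⟨W₁, h₁⟩ := hx (ε / (‖c‖ + 1)) (by positivity)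
      refine ⟨W₁, fun W hW F => ?_⟩
      refine le_of_eq_of_le (matNorm_smul c (fun s t : F => ((x s t : lp E ∞) : ∀ W, E W) W)) ?_
      have h3 := h₁ W hW F
      calc ‖c‖ * matNorm (fun s t : F => ((x s t : lp E ∞) : ∀ W, E W) W)
          ≤ (‖c‖ + 1) * (ε / (‖c‖ + 1)) := by
            gcongr
            · exact matNorm_nonneg _
            · linarith
        _ = ε := by field_simp
  obtain ⟨z, hz, hzm⟩ := hm' (ε / 2) (half_pos hε)
  obtain ⟨W₀, hW₀⟩ := hspan z hz (ε / 2) (half_pos hε)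
  refine ⟨W₀, fun W hW F => ?_⟩
  let ev : EC.J0 E →⋆ₙₐ[ℂ] E W :=
    { toFun := fun x => ((x : lp E ∞) : ∀ W, E W) W
      map_smul' := fun _ _ => rfl
      map_zero' := rfl
      map_add' := fun _ _ => rfl
      map_mul' := fun _ _ => rfl
      map_star' := fun _ => rfl }
  have h8 : (fun s t : F => m W s t) =
      fun s t : F => ev ((m' - z) s t) + ((z s t : lp E ∞) : ∀ W, E W) W := by
    funext s t
    rw [h7]
    show _ = ev (m' s t - z s t) + ev (z s t)
    rw [map_sub, sub_add_cancel]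
    rfl
  rw [h8]
  refine (matNorm_add_le _ _).trans ?_
  have h9 := (matNorm_map_le ev (fun s t : F => (m' - z) s t)).trans (hzm F)
  have h10 := hW₀ W hW F
  linarith

end Pool.Agent.KW
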